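import Mathlib
set_option autoImplicit false

/-! # Monotone families over `ℤ^n`: sizes -/

namespace Pool.Agent.Q167.MF

open Finset
open scoped Pointwise

/-- `y` is coordinatewise between `0` and `x` -/
def Between {n : ℕ} (y x : Fin n → ℤ) : Prop :=
  ∀ i, (0 ≤ y i ∧ y i ≤ x i) ∨ (x i ≤ y i ∧ y i ≤ 0)

lemma between_zero {n : ℕ} (x : Fin n → ℤ) : Between 0 x := by
  intro i
  rcases le_total 0 (x i) with h | h
  · left; exact ⟨le_rfl, h⟩
  · right; exact ⟨h, le_rfl⟩

/-- `D` is a monotone family: the fibre over `y` contains the fibre over `x` if `y` is coordinatewise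
between `0` and `x` -/
def IsMonotoneFamily {n : ℕ} {G : Type*} (D : Finset ((Fin n → ℤ) × G)) : Prop :=
  ∀ p ∈ D, ∀ y : Fin n → ℤ, Between y p.1 → (y, p.2) ∈ D

/-- the fibre over `0` -/
def fibre {n : ℕ} {G : Type*} [DecidableEq G] (D : Finset ((Fin n → ℤ) × G)) : Finset G :=
  (D.filter fun p => p.1 = 0).image Prod.snd

variable {n : ℕ} {G : Type*} [AddCommGroup G] [DecidableEq G]

lemma mem_fibre {D : Finset ((Fin n → ℤ) × G)} {h : G} : h ∈ fibre D ↔ ((0 : Fin n → ℤ), h) ∈ D := by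
  simp only [fibre, mem_image, mem_filter, Prod.exists, exists_eq_right]

lemma sizes (D : Finset ((Fin n → ℤ) × G)) (hD : D.Nonempty) (hm : IsMonotoneFamily D) {K : ℝ}
    (hK1 : 1 ≤ K) (hK : ((D + D).card : ℝ) ≤ K * D.card) :
    (∀ p ∈ D, p.1 ∈ D.image Prod.fst ∧ p.2 ∈ fibre D) ∧
    ((D.image Prod.fst).card : ℝ) * (fibre D).card ≤ K * D.card ∧
    ((D.image Prod.fst + D.image Prod.fst).card : ℝ) ≤ K ^ 3 * (D.image Prod.fst).card ∧
    (∀ x ∈ D.image Prod.fst, ∀ y : Fin n → ℤ, Between y x → y ∈ D.image Prod.fst) ∧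
    (fibre D).Nonempty ∧ ((fibre D + fibre D).card : ℝ) ≤ K ^ 3 * (fibre D).card := by
  classical
  set S := D.image Prod.fst with hS
  set F := fibre D with hF
  have hsub : ∀ p ∈ D, p.1 ∈ S ∧ p.2 ∈ F := by
    intro p hp
    exact ⟨mem_image_of_mem _ hp, mem_fibre.2 (hm p hp 0 (between_zero _))⟩
  obtain ⟨p₀, hp₀⟩ := hD
  have hFne : F.Nonempty := ⟨p₀.2, (hsub p₀ hp₀).2⟩
  have hFpos : (0 : ℝ) < F.card := by exact_mod_cast hFne.card_pos
  -- a section
  have hsec : ∀ x : Fin n → ℤ, ∃ h : G, x ∈ S → (x, h) ∈ D := by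
    intro x
    by_cases hx : x ∈ S
    · obtain ⟨p, hp, rfl⟩ := mem_image.1 hx
      exact ⟨p.2, fun _ => hp⟩
    · exact ⟨0, fun h => absurd h hx⟩
  choose s hs using hsec
  have h0F : ∀ f ∈ F, ((0 : Fin n → ℤ), f) ∈ D := fun f hf => mem_fibre.1 hf
  have c1 : S.card * F.card ≤ (D + D).card := by
    rw [← card_product]
    apply card_le_card_of_injOn (fun p : (Fin n → ℤ) × G => (p.1, s p.1 + p.2))
    · rintro ⟨x, f⟩ hp
      simp only [coe_product, Set.mem_prod, mem_coe] at hp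
      simp only [mem_coe]
      have : (x, s x + f) = (x, s x) + ((0 : Fin n → ℤ), f) := by simp
      rw [this]
      exact add_mem_add (hs x hp.1) (h0F f hp.2)
    · rintro ⟨x, f⟩ - ⟨y, g⟩ - h
      simp only [Prod.mk.injEq] at h
      obtain ⟨h1, h2⟩ := h
      subst h1
      rw [add_left_cancel h2]
  have c1' : (S.card : ℝ) * F.card ≤ K * D.card := by
    refine le_trans ?_ hK
    exact_mod_cast c1
  -- sums of two
  have hpair : ∀ z : Fin n → ℤ, ∃ q : (Fin n → ℤ) × (Fin n → ℤ), z ∈ S + S →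
      q.1 ∈ S ∧ q.2 ∈ S ∧ q.1 + q.2 = z := by
    intro z
    by_cases hz : z ∈ S + S
    · obtain ⟨a, ha, b, hb, h⟩ := mem_add.1 hz
      exact ⟨(a, b), fun _ => ⟨ha, hb, h⟩⟩
    · exact ⟨0, fun h => absurd h hz⟩
  choose q hq using hpair
  have c2 : (S + S).card * F.card ≤ (D + D + D).card := by
    rw [← card_product]
    apply card_le_card_of_injOn (fun p : (Fin n → ℤ) × G => (p.1, s (q p.1).1 + s (q p.1).2 + p.2))
    · rintro ⟨z, f⟩ hp
      simp only [coe_product, Set.mem_prod, mem_coe] at hp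
      simp only [mem_coe]
      obtain ⟨a1, a2, a3⟩ := hq z hp.1
      have : (z, s (q z).1 + s (q z).2 + f) = ((q z).1, s (q z).1) + ((q z).2, s (q z).2) +
          ((0 : Fin n → ℤ), f) := by
        simp [a3]
      rw [this]
      exact add_mem_add (add_mem_add (hs _ a1) (hs _ a2)) (h0F f hp.2)
    · rintro ⟨x, f⟩ - ⟨y, g⟩ - h
      simp only [Prod.mk.injEq] at h
      obtain ⟨h1, h2⟩ := h
      subst h1
      rw [add_left_cancel h2]
  have c4 : S.card * (F + F).card ≤ (D + D + D).card := by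
    rw [← card_product]
    apply card_le_card_of_injOn (fun p : (Fin n → ℤ) × G => (p.1, s p.1 + p.2))
    · rintro ⟨x, w⟩ hp
      simp only [coe_product, Set.mem_prod, mem_coe] at hp
      obtain ⟨hx, hw⟩ := hp
      obtain ⟨f, hf, f', hf', rfl⟩ := mem_add.1 hw
      simp only [mem_coe]
      have : (x, s x + (f + f')) = (x, s x) + ((0 : Fin n → ℤ), f) + ((0 : Fin n → ℤ), f') := by
        simp [add_assoc]
      rw [this]
      exact add_mem_add (add_mem_add (hs x hx) (h0F f hf)) (h0F f' hf')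
    · rintro ⟨x, f⟩ - ⟨y, g⟩ - h
      simp only [Prod.mk.injEq] at h
      obtain ⟨h1, h2⟩ := h
      subst h1
      rw [add_left_cancel h2]
  have hSpos : (0 : ℝ) < S.card := by
    exact_mod_cast (show S.Nonempty from ⟨p₀.1, (hsub p₀ hp₀).1⟩).card_pos
  have hDpos : (0 : ℝ) < D.card := by exact_mod_cast (show D.Nonempty from ⟨p₀, hp₀⟩).card_pos
  have c3 : ((D + D + D).card : ℝ) ≤ K ^ 3 * D.card := by
    have h1 := pluennecke_ruzsa_inequality_nsmul_add (show D.Nonempty from ⟨p₀, hp₀⟩) D 3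
    have h2 : (3 : ℕ) • D = D + D + D := by rw [succ_nsmul, two_nsmul]
    rw [h2] at h1
    have h3 : ((D + D + D).card : ℝ) ≤ (((D + D).card : ℝ) / D.card) ^ 3 * D.card := by
      have h4 := (NNRat.cast_le (K := ℝ)).2 h1
      push_cast at h4
      exact h4
    refine h3.trans ?_
    apply mul_le_mul_of_nonneg_right _ hDpos.le
    apply pow_le_pow_left₀ (by positivity)
    rw [div_le_iff₀ hDpos]
    exact hK
  have hDle : (D.card : ℝ) ≤ S.card * F.card := by
    have : D ⊆ S ×ˢ F := fun p hp => mem_product.2 (hsub p hp)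
    have h := card_le_card this
    rw [card_product] at h
    exact_mod_cast h
  refine ⟨hsub, c1', ?_, ?_, hFne, ?_⟩
  · have h1 : ((S + S).card : ℝ) * F.card ≤ K ^ 3 * S.card * F.card := by
      calc ((S + S).card : ℝ) * F.card ≤ (D + D + D).card := by exact_mod_cast c2
        _ ≤ K ^ 3 * D.card := c3
        _ ≤ K ^ 3 * (S.card * F.card) := mul_le_mul_of_nonneg_left hDle (by positivity)
        _ = K ^ 3 * S.card * F.card := by ring
    exact le_of_mul_le_mul_right h1 hFpos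
  · intro x hx y hy
    obtain ⟨p, hp, rfl⟩ := mem_image.1 hx
    exact mem_image.2 ⟨(y, p.2), hm p hp y hy, rfl⟩
  · have h1 : ((F + F).card : ℝ) * S.card ≤ K ^ 3 * F.card * S.card := by
      calc ((F + F).card : ℝ) * S.card = S.card * (F + F).card := mul_comm _ _
        _ ≤ (D + D + D).card := by exact_mod_cast c4
        _ ≤ K ^ 3 * D.card := c3
        _ ≤ K ^ 3 * (S.card * F.card) := mul_le_mul_of_nonneg_left hDle (by positivity)
        _ = K ^ 3 * F.card * S.card := by ring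
    exact le_of_mul_le_mul_right h1 hSpos

end Pool.Agent.Q167.MF
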