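import Mathlib
import Pool.Agent.Y806.DF.D
import Pool.Agent.Q167.MF.One
set_option autoImplicit false

/-! # Products of symmetric convex sets -/

namespace Pool.Agent.Q167.MF

open Finset Pool.Agent.Y806.DF
open scoped Pointwise

/-- the product of two sets -/
def prodB {d m : ℕ} (B₁ : Set (Fin d → ℝ)) (B₂ : Set (Fin m → ℝ)) : Set (Fin (d + m) → ℝ) :=
  {w | (fun i => w (Fin.castAdd m i)) ∈ B₁ ∧ (fun j => w (Fin.natAdd d j)) ∈ B₂}

lemma prodB_sym {d m : ℕ} {B₁ : Set (Fin d → ℝ)} {B₂ : Set (Fin m → ℝ)} (h₁ : Sym B₁) (h₂ : Sym B₂) :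
    Sym (prodB B₁ B₂) where
  conv := by
    rintro x ⟨hx1, hx2⟩ y ⟨hy1, hy2⟩ a b ha hb hab
    exact ⟨h₁.conv hx1 hy1 ha hb hab, h₂.conv hx2 hy2 ha hb hab⟩
  comp := by
    have e : prodB B₁ B₂ = (fun p : (Fin d → ℝ) × (Fin m → ℝ) => Fin.append p.1 p.2) '' (B₁ ×ˢ B₂) := by
      ext w
      constructor
      · rintro ⟨h1, h2⟩
        exact ⟨(_, _), ⟨h1, h2⟩, Fin.append_castAdd_natAdd⟩
      · rintro ⟨⟨u, v⟩, ⟨hu, hv⟩, rfl⟩
        refine ⟨?_, ?_⟩
        · simpa using hu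
        · simpa using hv
    rw [e]
    refine (h₁.comp.prod h₂.comp).image ?_
    refine continuous_pi fun i => ?_
    refine Fin.addCases (fun j => ?_) (fun j => ?_) i
    · simp only [Fin.append_left]
      exact (continuous_apply j).comp continuous_fst
    · simp only [Fin.append_right]
      exact (continuous_apply j).comp continuous_snd
  symm := by
    rintro x ⟨hx1, hx2⟩
    exact ⟨h₁.symm _ hx1, h₂.symm _ hx2⟩
  ne := by
    obtain ⟨u, hu⟩ := h₁.ne
    obtain ⟨v, hv⟩ := h₂.ne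
    refine ⟨Fin.append u v, ?_, ?_⟩
    · simpa using hu
    · simpa using hv

lemma lat_prodB {d m : ℕ} {B₁ : Set (Fin d → ℝ)} {B₂ : Set (Fin m → ℝ)} {w : Fin (d + m) → ℤ} :
    w ∈ lat (prodB B₁ B₂) ↔ (fun i => w (Fin.castAdd m i)) ∈ lat B₁ ∧
      (fun j => w (Fin.natAdd d j)) ∈ lat B₂ := Iff.rfl

lemma Sym.fin {r : ℕ} {B : Set (Fin r → ℝ)} (hB : Sym B) : (lat B).Finite :=
  lat_finite hB.comp.isBounded

lemma num_one {r : ℕ} (B : Set (Fin r → ℝ)) : num B 1 = (lat B).ncard := by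
  rw [num, one_smul]

lemma ncard_prodB {d m : ℕ} {B₁ : Set (Fin d → ℝ)} {B₂ : Set (Fin m → ℝ)} (h₁ : Sym B₁) (h₂ : Sym B₂) :
    (lat (prodB B₁ B₂)).ncard ≤ (lat B₁).ncard * (lat B₂).ncard := by
  rw [← Set.ncard_prod]
  refine Set.ncard_le_ncard_of_injOn (fun w : Fin (d + m) → ℤ =>
    ((fun i => w (Fin.castAdd m i), fun j => w (Fin.natAdd d j)) : (Fin d → ℤ) × (Fin m → ℤ))) ?_ ?_ ?_
  · intro w hw
    exact ⟨hw.1, hw.2⟩
  · intro u _ v _ h
    simp only [Prod.mk.injEq] at h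
    funext i
    refine Fin.addCases (fun j => congrFun h.1 j) (fun j => congrFun h.2 j) i
  · exact (Sym.fin h₁).prod (Sym.fin h₂)

/-- the homomorphism on the product -/
def prodHom {d m : ℕ} {P Q : Type*} [AddCommGroup P] [AddCommGroup Q] (ψ : (Fin d → ℤ) →+ P)
    (θ : (Fin m → ℤ) →+ Q) : (Fin (d + m) → ℤ) →+ P × Q where
  toFun w := (ψ fun i => w (Fin.castAdd m i), θ fun j => w (Fin.natAdd d j))
  map_zero' := by
    ext
    · exact ψ.map_zero
    · exact θ.map_zero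
  map_add' u v := by
    ext
    · exact ψ.map_add _ _
    · exact θ.map_add _ _

lemma four_pow {r : ℕ} {L : ℝ} (h : (2 : ℝ) ^ r ≤ L) : (4 : ℝ) ^ r ≤ L ^ 2 := by
  have : (4 : ℝ) ^ r = ((2 : ℝ) ^ r) ^ 2 := by
    rw [← pow_mul, mul_comm, pow_mul]; norm_num
  rw [this]
  exact pow_le_pow_left₀ (by positivity) h 2

/-- the integer points of a symmetric convex set as data -/
lemma doubling {r : ℕ} {B : Set (Fin r → ℝ)} (hB : Sym B) {X : Finset (Fin r → ℤ)}
    (hX : (X : Set (Fin r → ℤ)) = lat B) {M : ℝ} (hM : (4 : ℝ) ^ r ≤ M) :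
    X.Nonempty ∧ ((X + X).card : ℝ) ≤ M * X.card ∧ (hull X).ncard ≤ X.card := by
  have hc : X.card = (lat B).ncard := by rw [← hX, Set.ncard_coe_finset]
  refine ⟨?_, ?_, ?_⟩
  · refine ⟨0, ?_⟩
    rw [← mem_coe, hX]
    have : re (0 : Fin r → ℤ) = 0 := by funext i; simp [re]
    show re 0 ∈ B
    rw [this]
    exact hB.zero
  · have h1 : ((X + X : Finset (Fin r → ℤ)) : Set (Fin r → ℤ)) ⊆ lat ((2 * 1 : ℝ) • B) := by
      intro z hz
      obtain ⟨a, ha, b, hb, rfl⟩ := mem_add.1 (mem_coe.1 hz)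
      rw [← mem_coe, hX] at ha hb
      have := hB.add (s := 1) (t := 1) zero_le_one zero_le_one (v := a) (w := b)
        (by rw [one_smul]; exact ha) (by rw [one_smul]; exact hb)
      rw [show (1 : ℝ) + 1 = 2 * 1 from by norm_num] at this
      exact this
    have h2 : (X + X).card ≤ num B (2 * 1) := by
      rw [← Set.ncard_coe_finset]
      exact Set.ncard_le_ncard h1 (hB.finite _)
    have h3 := num_double hB (t := 1) zero_le_one
    rw [num_one] at h3
    calc ((X + X).card : ℝ) ≤ num B (2 * 1) := by exact_mod_cast h2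
      _ ≤ ((4 ^ r * (lat B).ncard : ℕ) : ℝ) := by exact_mod_cast h3
      _ = 4 ^ r * X.card := by rw [hc]; push_cast; ring
      _ ≤ M * X.card := mul_le_mul_of_nonneg_right hM (Nat.cast_nonneg _)
  · rw [hc]
    refine Set.ncard_le_ncard ?_ (Sym.fin hB)
    intro v hv
    refine convexHull_min ?_ hB.conv hv
    rintro _ ⟨x, hx, rfl⟩
    rw [hX] at hx
    exact hx

end Pool.Agent.Q167.MF
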