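import Mathlib
import Pool.Agent.Q167.MF.Two
import Pool.Agent.H947R2.DS.Final
import Pool.Agent.H947R2.DS.A
import Pool.Agent.H947R2.DS.One
import Pool.Agent.H947R2.DS.I
import Pool.Agent.H401R9.DS.BOX
import Pool.Agent.H272R9.DS.COV
import Pool.Agent.H331R9.DS.ORTH
import Pool.Agent.H48R9.DS.PROG
set_option autoImplicit false

/-! # Monotone families with a structured fibre -/

namespace Pool.Agent.Q167.MF

open Finset Pool.Agent.Y806.DF
open scoped Pointwise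

/-- `F` is covered by at most `L` translates of a centred convex coset progression of dimension at most
`log₂ L` and volume at most `L |F|`. -/
def Structured {G : Type*} [AddCommGroup G] (L : ℝ) (F : Finset G) : Prop :=
  ∃ (m : ℕ) (B : Set (Fin m → ℝ)) (θ : (Fin m → ℤ) →+ G) (H : AddSubgroup G) (T : Finset G),
    (2 : ℝ) ^ m ≤ L ∧ Body B ∧ Finite H ∧ ((lat B).ncard : ℝ) * Nat.card H ≤ L * F.card ∧
    (T.card : ℝ) ≤ L ∧ Cov B θ H T F

lemma box {n : ℕ} (K : ℝ) (S : Finset (Fin n → ℤ)) (hS : S.Nonempty)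
    (hK : ((S + S).card : ℝ) ≤ K * (S.card : ℝ))
    (hbox : ∀ x ∈ S, ∀ y : Fin n → ℤ, Between y x → y ∈ S) :
    ∃ (d : ℕ) (B : Set (Fin d → ℝ)) (ψ : (Fin d → ℤ) →+ (Fin n → ℤ)) (T : Finset (Fin n → ℤ)),
      (2 : ℝ) ^ d ≤ 2 * K ∧ Body B ∧ (lat B).ncard ≤ S.card ∧ (T.card : ℝ) ≤ 1024 * K ^ 10 ∧
      ∀ a ∈ S, ∃ t ∈ T, ∃ x ∈ lat B, a = t + ψ x := by
  obtain ⟨d, B, ψ, T, h1, h2, h3, h4, h5, h6, h7, h8, h9⟩ :=
    H947DS.final (H947DS.BOX_proof (H947DS.A_proof (H947DS.ONE_proof H947DS.W_proof))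
      H947DS.I_proof H947DS.ORTH_proof) H947DS.COV_proof H947DS.PROG_proof
      K S hS hK n S hbox id isAddFreimanIso_id
  exact ⟨d, B, ψ, T, h1, ⟨h2, h3, h4, h5⟩, h7, h8, h9⟩

lemma Body.sym {r : ℕ} {B : Set (Fin r → ℝ)} (h : Body B) : Sym B :=
  ⟨h.1, h.2.1, h.2.2.2, h.2.2.1.mono interior_subset⟩

lemma pw {K L c : ℝ} (hK : 1 ≤ K) (hL : 1 ≤ L) (hc : c ≤ 1024) {a b : ℕ}
    (ha : a ≤ 31) (hb : b ≤ 2) : c * K ^ a * L ^ b ≤ 1024 * K ^ 31 * L ^ 2 := by
  have hK0 : 0 ≤ K := by linarith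
  have hL0 : 0 ≤ L := by linarith
  exact mul_le_mul (mul_le_mul hc (pow_le_pow_right₀ hK ha) (by positivity) (by norm_num))
    (pow_le_pow_right₀ hL hb) (by positivity) (by positivity)

theorem main {Γ G : Type*} [AddCommGroup Γ] [DecidableEq Γ] [AddCommGroup G] [DecidableEq G]
    {K L : ℝ} {A : Finset Γ} (hA : A.Nonempty) (hK : ((A + A).card : ℝ) ≤ K * A.card)
    {n : ℕ} {D : Finset ((Fin n → ℤ) × G)} (hD : D.Nonempty)
    (hDK : ((D + D).card : ℝ) ≤ K * D.card) (hsize : (D.card : ℝ) ≤ K * A.card)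
    (hm : IsMonotoneFamily D) (hF : Structured L (fibre D)) (φ : ((Fin n → ℤ) × G) →+ Γ) (g : Γ)
    (hmeet : (A.card : ℝ) ≤ K * ({a : Γ | a ∈ A ∧ ∃ p ∈ D, a = g + φ p}.ncard : ℝ)) :
    ∃ (r : ℕ) (B : Set (Fin r → ℝ)) (θ : (Fin r → ℤ) →+ Γ) (H : AddSubgroup Γ) (T : Finset Γ),
      (r : ℝ) ≤ 500 * Real.log (2048 * K ^ 31 * L ^ 2) ∧ Body B ∧ Finite H ∧
      (lat B).ncard * Nat.card H ≤ A.card ∧ (T.card : ℝ) ≤ 5000 * (1024 * K ^ 31 * L ^ 2) ^ 5000 ∧
      Cov B θ H T A := by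
  classical
  have hK1 : 1 ≤ K := one_le_K hA hK
  have hK0 : 0 < K := by linarith
  obtain ⟨hsub, c1, c2, hstar, hFne, -⟩ := sizes D hD hm hK1 hDK
  set S := D.image Prod.fst with hS
  set F := fibre D with hFd
  have hSne : S.Nonempty := hD.image _
  obtain ⟨d, B₁, ψ, T₁, hd, hB₁, hcard₁, hT₁, hcov₁⟩ := box (K ^ 3) S hSne c2 hstar
  obtain ⟨m, B₂, θ, H, T₂, hmL, hB₂, hHfin, hvol₂, hT₂, hcov₂⟩ := hF
  have hT₂ne : T₂.Nonempty := by
    obtain ⟨f, hf⟩ := hFne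
    obtain ⟨t, ht, -⟩ := hcov₂ f hf
    exact ⟨t, ht⟩
  have hL1 : 1 ≤ L := by
    have : (1 : ℝ) ≤ T₂.card := by exact_mod_cast hT₂ne.card_pos
    linarith
  have hL0 : 0 < L := by linarith
  set K' : ℝ := 1024 * K ^ 31 * L ^ 2 with hK'
  have hKK : K ≤ K' := by
    calc K = 1 * K ^ 1 * L ^ 0 := by ring
      _ ≤ 1024 * K ^ 31 * L ^ 2 := pw hK1 hL1 (by norm_num) (by norm_num) (by norm_num)
  have hK'1 : 1 ≤ K' := hK1.trans hKK
  have hs₁ := Body.sym hB₁
  have hs₂ := Body.sym hB₂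
  have hB : Sym (prodB B₁ B₂) := prodB_sym hs₁ hs₂
  set X : Finset (Fin (d + m) → ℤ) := (Sym.fin hB).toFinset with hX
  have hXc : (X : Set (Fin (d + m) → ℤ)) = lat (prodB B₁ B₂) := by rw [hX, Set.Finite.coe_toFinset]
  have h4 : (4 : ℝ) ^ (d + m) ≤ K' := by
    rw [pow_add]
    calc (4 : ℝ) ^ d * 4 ^ m ≤ (2 * K ^ 3) ^ 2 * L ^ 2 :=
          mul_le_mul (four_pow hd) (four_pow hmL) (by positivity) (by positivity)
      _ = 4 * K ^ 6 * L ^ 2 := by ring
      _ ≤ 1024 * K ^ 31 * L ^ 2 := pw hK1 hL1 (by norm_num) (by norm_num) (by norm_num)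
  obtain ⟨hXne, hXd, hXh⟩ := doubling hB hXc h4
  set Φ : (Fin (d + m) → ℤ) →+ Γ := φ.comp (prodHom ψ θ) with hΦ
  set H' : AddSubgroup Γ := H.map (φ.comp (AddMonoidHom.inr (Fin n → ℤ) G)) with hH'
  have hsurj : Function.Surjective (fun h : H =>
      (⟨(φ.comp (AddMonoidHom.inr (Fin n → ℤ) G)) h, AddSubgroup.mem_map_of_mem _ h.2⟩ : H')) := by
    rintro ⟨y, hy⟩
    obtain ⟨h, hh, rfl⟩ := AddSubgroup.mem_map.1 hy
    exact ⟨⟨h, hh⟩, rfl⟩
  have hH'fin : Finite H' := Finite.of_surjective _ hsurj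
  have hH'card : Nat.card H' ≤ Nat.card H := Nat.card_le_card_of_surjective _ hsurj
  -- the large part
  set A1 := A.filter (fun a => ∃ p ∈ D, a = g + φ p) with hA1
  have hmeet' : (A.card : ℝ) ≤ K * A1.card := by
    have h2 : {a : Γ | a ∈ A ∧ ∃ p ∈ D, a = g + φ p} = (A1 : Set Γ) := by
      ext a
      rw [hA1, Finset.coe_filter]
    rw [h2, Set.ncard_coe_finset] at hmeet
    exact hmeet
  have hAr : (0 : ℝ) < A.card := by exact_mod_cast hA.card_pos
  have hA1ne : A1.Nonempty := by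
    rw [← Finset.card_pos]
    by_contra h
    have h0 : A1.card = 0 := by omega
    rw [h0, Nat.cast_zero, mul_zero] at hmeet'
    linarith
  obtain ⟨i, hi, hcard⟩ := pigeon (T₁ ×ˢ T₂) A A1 hA1ne
    (fun i a => ∃ x ∈ X, ∃ h ∈ H', a = (g + φ i) + Φ x + h) (Finset.filter_subset _ _) (by
      intro a ha
      obtain ⟨p, hp, rfl⟩ := (Finset.mem_filter.1 ha).2
      obtain ⟨t₁, ht₁, u, hu, e₁⟩ := hcov₁ p.1 (hsub p hp).1
      obtain ⟨t₂, ht₂, v, hv, h, hh, e₂⟩ := hcov₂ p.2 (hsub p hp).2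
      refine ⟨(t₁, t₂), mem_product.2 ⟨ht₁, ht₂⟩, Fin.append u v, ?_,
        φ ((0 : Fin n → ℤ), h), AddSubgroup.mem_map.2 ⟨h, hh, rfl⟩, ?_⟩
      · rw [← mem_coe, hXc, lat_prodB]
        constructor
        · simpa using hu
        · simpa using hv
      · have e3 : Φ (Fin.append u v) = φ (ψ u, θ v) := by
          rw [hΦ]
          show φ (prodHom ψ θ (Fin.append u v)) = _
          congr 1
          show (ψ (fun i => Fin.append u v (Fin.castAdd m i)), θ (fun j => Fin.append u v (Fin.natAdd d j))) = _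
          simp only [Fin.append_left, Fin.append_right]
        rw [e3, add_assoc, add_assoc, ← map_add, ← map_add]
        congr 2
        ext
        · simp [e₁]
        · simp only [Prod.snd_add]
          rw [e₂, add_assoc])
  have hTcard : (((T₁ ×ˢ T₂).card : ℕ) : ℝ) ≤ 1024 * (K ^ 3) ^ 10 * L := by
    rw [card_product]
    push_cast
    exact mul_le_mul hT₁ hT₂ (Nat.cast_nonneg _) (by positivity)
  have hdata : Data K' A X Φ H' (g + φ i) := by
    refine ⟨hXne, hH'fin, hXd, ?_, ?_, ?_⟩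
    · calc ((hull X).ncard : ℝ) ≤ X.card := by exact_mod_cast hXh
        _ = 1 * X.card := (one_mul _).symm
        _ ≤ K' * X.card := mul_le_mul_of_nonneg_right hK'1 (Nat.cast_nonneg _)
    · have e1 : X.card = (lat (prodB B₁ B₂)).ncard := by rw [← hXc, Set.ncard_coe_finset]
      have e2 : (X.card : ℝ) ≤ S.card * (lat B₂).ncard := by
        rw [e1]
        have := (ncard_prodB hs₁ hs₂).trans (Nat.mul_le_mul_right _ hcard₁)
        exact_mod_cast this
      calc (X.card : ℝ) * Nat.card H' ≤ (S.card * (lat B₂).ncard) * Nat.card H := by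
            apply mul_le_mul e2 (by exact_mod_cast hH'card) (Nat.cast_nonneg _) (by positivity)
        _ = S.card * ((lat B₂).ncard * Nat.card H) := by ring
        _ ≤ S.card * (L * F.card) := mul_le_mul_of_nonneg_left hvol₂ (Nat.cast_nonneg _)
        _ = L * (S.card * F.card) := by ring
        _ ≤ L * (K * D.card) := mul_le_mul_of_nonneg_left c1 hL0.le
        _ ≤ L * (K * (K * A.card)) := by
          apply mul_le_mul_of_nonneg_left _ hL0.le
          exact mul_le_mul_of_nonneg_left hsize hK0.le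
        _ = (1 * K ^ 2 * L ^ 1) * A.card := by ring
        _ ≤ K' * A.card := by
          apply mul_le_mul_of_nonneg_right _ hAr.le
          exact pw hK1 hL1 (by norm_num) (by norm_num) (by norm_num)
    · have e1 : {a : Γ | a ∈ A ∧ ∃ x ∈ X, ∃ h ∈ H', a = (g + φ i) + Φ x + h} =
          ((A.filter (fun a => ∃ x ∈ X, ∃ h ∈ H', a = (g + φ i) + Φ x + h) : Finset Γ) : Set Γ) := by
        ext a
        rw [Finset.coe_filter]
      rw [e1, Set.ncard_coe_finset]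
      set N := (A.filter (fun a => ∃ x ∈ X, ∃ h ∈ H', a = (g + φ i) + Φ x + h)).card with hN
      have e2 : (A1.card : ℝ) ≤ ((T₁ ×ˢ T₂).card : ℕ) * N := by exact_mod_cast hcard
      calc (A.card : ℝ) ≤ K * A1.card := hmeet'
        _ ≤ K * (((T₁ ×ˢ T₂).card : ℕ) * N) := mul_le_mul_of_nonneg_left e2 hK0.le
        _ ≤ K * (1024 * (K ^ 3) ^ 10 * L * N) := by
          apply mul_le_mul_of_nonneg_left _ hK0.le
          exact mul_le_mul_of_nonneg_right hTcard (Nat.cast_nonneg _)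
        _ = (1024 * K ^ 31 * L ^ 1) * N := by ring
        _ ≤ K' * N := by
          apply mul_le_mul_of_nonneg_right _ (Nat.cast_nonneg _)
          exact pw hK1 hL1 (by norm_num) (by norm_num) (by norm_num)
  obtain ⟨r, B, θ', H'', T, h1, h2, h3, h4', h5, h6⟩ := Y806.DF.main hA
    (hK.trans (mul_le_mul_of_nonneg_right hKK hAr.le)) hdata
  refine ⟨r, B, θ', H'', T, ?_, h2, h3, h4', h5, h6⟩
  have : 2 * K' = 2048 * K ^ 31 * L ^ 2 := by rw [hK']; ring
  rw [← this]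
  exact h1

/-- the class of structured sets is closed -/
theorem closure {Γ G : Type*} [AddCommGroup Γ] [DecidableEq Γ] [AddCommGroup G] [DecidableEq G]
    {K L : ℝ} {A : Finset Γ} (hA : A.Nonempty) (hK : ((A + A).card : ℝ) ≤ K * A.card)
    {n : ℕ} {D : Finset ((Fin n → ℤ) × G)} (hD : D.Nonempty)
    (hDK : ((D + D).card : ℝ) ≤ K * D.card) (hsize : (D.card : ℝ) ≤ K * A.card)
    (hm : IsMonotoneFamily D) (hF : Structured L (fibre D)) (φ : ((Fin n → ℤ) × G) →+ Γ) (g : Γ)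
    (hmeet : (A.card : ℝ) ≤ K * ({a : Γ | a ∈ A ∧ ∃ p ∈ D, a = g + φ p}.ncard : ℝ)) :
    Structured (5000 * (2048 * K ^ 31 * L ^ 2) ^ 5000) A := by
  obtain ⟨r, B, θ, H, T, h1, h2, h3, h4, h5, h6⟩ := main hA hK hD hDK hsize hm hF φ g hmeet
  have hK1 : 1 ≤ K := one_le_K hA hK
  have hL1 : 1 ≤ L := by
    obtain ⟨-, -, -, -, hFne, -⟩ := sizes D hD hm hK1 hDK
    obtain ⟨m, B₂, θ, H, T₂, -, -, -, -, hT₂, hcov₂⟩ := hF
    obtain ⟨f, hf⟩ := hFne
    obtain ⟨t, ht, -⟩ := hcov₂ f hf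
    have : (1 : ℝ) ≤ T₂.card := by exact_mod_cast (show T₂.Nonempty from ⟨t, ht⟩).card_pos
    linarith
  set M : ℝ := 2048 * K ^ 31 * L ^ 2 with hM
  have hM1 : 1 ≤ M := by
    have h7 := one_le_pow₀ hK1 (n := 31)
    have h8 := one_le_pow₀ hL1 (n := 2)
    calc (1 : ℝ) = 1 * 1 * 1 := by norm_num
      _ ≤ 2048 * K ^ 31 * L ^ 2 :=
        mul_le_mul (mul_le_mul (by norm_num) h7 (by norm_num) (by norm_num)) h8 (by norm_num)
          (by positivity)
  have hM0 : 0 < M := by linarith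
  have hMp : (1 : ℝ) ≤ M ^ 5000 := one_le_pow₀ hM1
  refine ⟨r, B, θ, H, T, ?_, h2, h3, ?_, ?_, h6⟩
  · have hlog : 0 ≤ Real.log M := Real.log_nonneg hM1
    have h7 : (2 : ℝ) ^ r ≤ M ^ 5000 := by
      rw [← Real.log_le_log_iff (by positivity) (by positivity), Real.log_pow, Real.log_pow]
      have h8 := Real.log_two_lt_d9
      have h9 : (0 : ℝ) ≤ r := Nat.cast_nonneg _
      have h10 : 0 ≤ Real.log 2 := Real.log_nonneg (by norm_num)
      push_cast
      calc (r : ℝ) * Real.log 2 ≤ (r : ℝ) * 1 := mul_le_mul_of_nonneg_left (by linarith) h9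
        _ ≤ 500 * Real.log M := by linarith
        _ ≤ 5000 * Real.log M := by nlinarith
    linarith
  · have h7 : (((lat B).ncard * Nat.card H : ℕ) : ℝ) ≤ A.card := by exact_mod_cast h4
    push_cast at h7
    have h8 : (1 : ℝ) ≤ 5000 * M ^ 5000 := by linarith
    calc ((lat B).ncard : ℝ) * Nat.card H ≤ A.card := h7
      _ = 1 * A.card := (one_mul _).symm
      _ ≤ 5000 * M ^ 5000 * A.card := mul_le_mul_of_nonneg_right h8 (Nat.cast_nonneg _)
  · refine h5.trans ?_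
    apply mul_le_mul_of_nonneg_left _ (by norm_num)
    apply pow_le_pow_left₀ (by positivity)
    rw [hM]
    apply mul_le_mul_of_nonneg_right _ (by positivity)
    apply mul_le_mul_of_nonneg_right (by norm_num) (by positivity)

end Pool.Agent.Q167.MF
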