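import Mathlib
import Pool.Agent.Q167.MF.Three
import Pool.Agent.TH404.Tor.Final
set_option autoImplicit false

/-! # Monotone families with fibres of bounded exponent -/

namespace Pool.Agent.Q167.MF

open Finset Pool.Agent.Y806.DF
open scoped Pointwise

/-- `A` is modelled by the monotone family `D`: at least `|A| / K` elements of `A` are in the
translate by `g` of the image of `D` under a homomorphism, `|D| ≤ K |A|`, `|D + D| ≤ K |D|`. -/
structure Model {Γ G : Type*} [AddCommGroup Γ] [DecidableEq Γ] [AddCommGroup G] [DecidableEq G]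
    (K : ℝ) (A : Finset Γ) {n : ℕ} (D : Finset ((Fin n → ℤ) × G))
    (φ : ((Fin n → ℤ) × G) →+ Γ) (g : Γ) : Prop where
  ne : D.Nonempty
  monotone : IsMonotoneFamily D
  doubling : ((D + D).card : ℝ) ≤ K * D.card
  size : (D.card : ℝ) ≤ K * A.card
  meet : (A.card : ℝ) ≤ K * ({a : Γ | a ∈ A ∧ ∃ p ∈ D, a = g + φ p}.ncard : ℝ)

/-- the conclusion of Q1, with bounds `R` for the dimension and `N` for the number of translates -/
def Covered {Γ : Type*} [AddCommGroup Γ] (R N : ℝ) (A : Finset Γ) : Prop :=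
  ∃ (r : ℕ) (B : Set (Fin r → ℝ)) (θ : (Fin r → ℤ) →+ Γ) (H : AddSubgroup Γ) (T : Finset Γ),
    (r : ℝ) ≤ R ∧ Body B ∧ Finite H ∧ (lat B).ncard * Nat.card H ≤ A.card ∧ (T.card : ℝ) ≤ N ∧
    Cov B θ H T A

lemma structured_of_subgroup {G : Type*} [AddCommGroup G] {L : ℝ} {F : Finset G} (hF : F.Nonempty)
    (H : AddSubgroup G) (T : Finset G) (hH : Finite H) (hc : Nat.card H ≤ F.card)
    (hT : (T.card : ℝ) ≤ L) (h : ∀ a ∈ F, ∃ t ∈ T, a - t ∈ H) : Structured L F := by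
  have hL1 : 1 ≤ L := by
    obtain ⟨f, hf⟩ := hF
    obtain ⟨t, ht, -⟩ := h f hf
    have : (1 : ℝ) ≤ T.card := by exact_mod_cast (show T.Nonempty from ⟨t, ht⟩).card_pos
    linarith
  refine ⟨0, Set.univ, 0, H, T, by simpa using hL1, ⟨convex_univ, ?_, ?_, fun _ _ => trivial⟩, hH, ?_,
    hT, ?_⟩
  · exact Set.finite_univ.isCompact
  · rw [interior_univ]; exact Set.univ_nonempty
  · have e : (lat (Set.univ : Set (Fin 0 → ℝ))).ncard = 1 := by
      have : lat (Set.univ : Set (Fin 0 → ℝ)) = Set.univ := by ext v; simp [lat]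
      rw [this, Set.ncard_univ]
      simp
    rw [e]
    have h1 : (Nat.card H : ℝ) ≤ F.card := by exact_mod_cast hc
    calc ((1 : ℕ) : ℝ) * Nat.card H = Nat.card H := by simp
      _ ≤ 1 * F.card := by linarith
      _ ≤ L * F.card := mul_le_mul_of_nonneg_right hL1 (Nat.cast_nonneg _)
  · intro a ha
    obtain ⟨t, ht, hat⟩ := h a ha
    exact ⟨t, ht, 0, trivial, a - t, hat, by simp⟩

theorem model {Γ G : Type*} [AddCommGroup Γ] [DecidableEq Γ] [AddCommGroup G] [DecidableEq G]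
    {K L : ℝ} {A : Finset Γ} (hA : A.Nonempty) (hK : ((A + A).card : ℝ) ≤ K * A.card)
    {n : ℕ} {D : Finset ((Fin n → ℤ) × G)} {φ : ((Fin n → ℤ) × G) →+ Γ} {g : Γ}
    (hM : Model K A D φ g) (hL : Structured L (fibre D)) :
    Covered (500 * Real.log (2048 * K ^ 31 * L ^ 2)) (5000 * (1024 * K ^ 31 * L ^ 2) ^ 5000) A ∧
    Structured (5000 * (2048 * K ^ 31 * L ^ 2) ^ 5000) A :=
  ⟨main hA hK hM.ne hM.doubling hM.size hM.monotone hL φ g hM.meet,
    closure hA hK hM.ne hM.doubling hM.size hM.monotone hL φ g hM.meet⟩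

theorem torsion {Γ G : Type*} [AddCommGroup Γ] [DecidableEq Γ] [AddCommGroup G] [DecidableEq G]
    {m : ℕ} (hm : 0 < m) (htor : ∀ x : G, m • x = 0)
    {K : ℝ} {A : Finset Γ} (hA : A.Nonempty) (hK : ((A + A).card : ℝ) ≤ K * A.card)
    {n : ℕ} {D : Finset ((Fin n → ℤ) × G)} {φ : ((Fin n → ℤ) × G) →+ Γ} {g : Γ}
    (hM : Model K A D φ g) :
    Covered (200000000 * (Nat.log 2 m + 1) * Real.log (2 * K))
      ((2 * K) ^ (2000000000 * (Nat.log 2 m + 1))) A := by
  have hK1 : 1 ≤ K := one_le_K hA hK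
  obtain ⟨-, -, -, -, hFne, hFK⟩ := sizes D hM.ne hM.monotone hK1 hM.doubling
  obtain ⟨H, T, hH, hc, hT, hcov⟩ := TH404.Tor.upper m hm htor (K ^ 3) (fibre D) hFne hFK
  set ℓ : ℕ := Nat.log 2 m + 1 with hℓ
  have hℓ1 : 1 ≤ ℓ := by omega
  set x : ℝ := 2 * K with hx
  have hx2 : 2 ≤ x := by linarith
  have hx1 : 1 ≤ x := by linarith
  obtain ⟨e, he⟩ : ∃ e : ℕ, e = 41005 * ℓ := ⟨_, rfl⟩
  rw [← he] at hT
  set L : ℝ := (x ^ 3) ^ e with hL
  have hT' : (T.card : ℝ) ≤ L := by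
    refine hT.trans ?_
    rw [hL]
    apply pow_le_pow_left₀ (by positivity)
    rw [hx, mul_pow]
    have := pow_nonneg (show (0 : ℝ) ≤ K by linarith) 3
    nlinarith
  obtain ⟨⟨r, B, θ, H', T', h1, h2, h3, h4, h5, h6⟩, -⟩ :=
    model hA hK hM (structured_of_subgroup hFne H T hH hc hT' hcov)
  have hKx : K ≤ x := by linarith
  have hK31 : K ^ 31 ≤ x ^ 31 := pow_le_pow_left₀ (by linarith) hKx 31
  have hprod : K ^ 31 * L ^ 2 ≤ x ^ (31 + 6 * e) := by
    have e1 : L ^ 2 = x ^ (6 * e) := by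
      rw [hL, ← pow_mul, ← pow_mul]
      congr 1
      ring
    rw [e1, pow_add]
    exact mul_le_mul_of_nonneg_right hK31 (by positivity)
  have h11 : (2048 : ℝ) ≤ x ^ 11 := by
    calc (2048 : ℝ) = 2 ^ 11 := by norm_num
      _ ≤ x ^ 11 := pow_le_pow_left₀ (by norm_num) hx2 11
  have hbig : 2048 * K ^ 31 * L ^ 2 ≤ x ^ (246072 * ℓ) := by
    calc 2048 * K ^ 31 * L ^ 2 = 2048 * (K ^ 31 * L ^ 2) := by ring
      _ ≤ x ^ 11 * x ^ (31 + 6 * e) := mul_le_mul h11 hprod (by positivity) (by positivity)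
      _ = x ^ (11 + (31 + 6 * e)) := (pow_add _ _ _).symm
      _ ≤ x ^ (246072 * ℓ) := pow_le_pow_right₀ hx1 (by omega)
  have hL0 : 0 < L := by positivity
  have hK310 : 0 < K ^ 31 := by positivity
  refine ⟨r, B, θ, H', T', h1.trans ?_, h2, h3, h4, h5.trans ?_, h6⟩
  · have h7 : Real.log (2048 * K ^ 31 * L ^ 2) ≤ (246072 * ℓ : ℕ) * Real.log x := by
      rw [← Real.log_pow]
      exact Real.log_le_log (by positivity) hbig
    have hlx : 0 ≤ Real.log x := Real.log_nonneg hx1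
    have hℓr : (1 : ℝ) ≤ ℓ := by exact_mod_cast hℓ1
    have e : ((Nat.log 2 m : ℕ) : ℝ) + 1 = ℓ := by rw [hℓ]; push_cast; ring
    rw [e]
    push_cast at h7
    calc 500 * Real.log (2048 * K ^ 31 * L ^ 2) ≤ 500 * (246072 * ℓ * Real.log x) := by linarith
      _ = 123036000 * (ℓ * Real.log x) := by ring
      _ ≤ 200000000 * (ℓ * Real.log x) := by
        apply mul_le_mul_of_nonneg_right (by norm_num) (by positivity)
      _ = 200000000 * ℓ * Real.log x := by ring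
  · have h8 : 1024 * K ^ 31 * L ^ 2 ≤ x ^ (246072 * ℓ) := by
      refine le_trans ?_ hbig
      have : 0 < K ^ 31 * L ^ 2 := by positivity
      nlinarith
    have h9 : (1024 * K ^ 31 * L ^ 2) ^ 5000 ≤ x ^ (246072 * ℓ * 5000) := by
      rw [pow_mul]
      exact pow_le_pow_left₀ (by positivity) h8 5000
    have h13 : (5000 : ℝ) ≤ x ^ 13 := by
      calc (5000 : ℝ) ≤ 2 ^ 13 := by norm_num
        _ ≤ x ^ 13 := pow_le_pow_left₀ (by norm_num) hx2 13
    calc 5000 * (1024 * K ^ 31 * L ^ 2) ^ 5000 ≤ x ^ 13 * x ^ (246072 * ℓ * 5000) :=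
          mul_le_mul h13 h9 (by positivity) (by positivity)
      _ = x ^ (13 + 246072 * ℓ * 5000) := (pow_add _ _ _).symm
      _ ≤ x ^ (2000000000 * ℓ) := pow_le_pow_right₀ hx1 (by omega)

end Pool.Agent.Q167.MF
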